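import Pool.Agent.H585R4.JT.Stmts

/-!
# Task 585-C2: functionals on the James tree space without mass on the branches
-/

set_option autoImplicit false
open Filter Topology Finset
open scoped ENNReal

namespace Pool.Agent.H511R3.JT

open Pool.Agent.H585R4.JT

theorem konig (m : Nd → ℝ) (hm : ∀ s t : Nd, s <:+ t → m t ≤ m s)
    (hγ : ∀ γ : ℕ → Bool, ∀ δ : ℝ, 0 < δ → ∃ n, m (bn γ n) ≤ δ) (δ : ℝ) (hδ : 0 < δ) :
    ∃ N : ℕ, ∀ t : Nd, N ≤ t.length → m t ≤ δ := by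
  classical
  by_contra hc
  push Not at hc
  let big : Nd → Prop := fun s => ∀ N : ℕ, ∃ t : Nd, s <:+ t ∧ N ≤ t.length ∧ δ < m t
  have h0 : big [] := fun N => by
    obtain ⟨t, h1, h2⟩ := hc N
    exact ⟨t, List.nil_suffix, h1, h2⟩
  have hstep : ∀ s, big s → big (true :: s) ∨ big (false :: s) := by
    intro s hs
    by_contra hcon
    rw [not_or] at hcon
    obtain ⟨h1, h2⟩ := hcon
    have h1' : ∃ N : ℕ, ¬ ∃ t : Nd, (true :: s) <:+ t ∧ N ≤ t.length ∧ δ < m t := not_forall.1 h1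
    have h2' : ∃ N : ℕ, ¬ ∃ t : Nd, (false :: s) <:+ t ∧ N ≤ t.length ∧ δ < m t := not_forall.1 h2
    obtain ⟨N1, hN1⟩ := h1'
    obtain ⟨N2, hN2⟩ := h2'
    obtain ⟨t, ht1, ht2, ht3⟩ := hs (max (max N1 N2) (s.length + 1))
    obtain ⟨u, hu⟩ := ht1
    rcases List.eq_nil_or_concat u with rfl | ⟨u', b, rfl⟩
    · rw [List.nil_append] at hu
      subst hu
      omega
    · have hsf : (b :: s) <:+ t := ⟨u', by rw [← hu]; simp⟩
      cases b with
      | true => exact hN1 ⟨t, hsf, by omega, ht3⟩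
      | false => exact hN2 ⟨t, hsf, by omega, ht3⟩
  let node : ℕ → Nd := fun n => Nat.rec [] (fun _ s => decide (big (true :: s)) :: s) n
  let γ : ℕ → Bool := fun n => decide (big (true :: node n))
  have hnode : ∀ n, bn γ n = node n := by
    intro n
    induction n with
    | zero => rfl
    | succ n ih =>
      show γ n :: bn γ n = _
      rw [ih]
  have hbig : ∀ n, big (node n) := by
    intro n
    induction n with
    | zero => exact h0
    | succ n ih =>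
      show big (decide (big (true :: node n)) :: node n)
      by_cases h : big (true :: node n)
      · rw [decide_eq_true h]
        exact h
      · rw [decide_eq_false h]
        exact (hstep _ ih).resolve_left h
  obtain ⟨n, hn⟩ := hγ γ δ hδ
  rw [hnode] at hn
  obtain ⟨t, ht1, _, ht3⟩ := hbig n 0
  have := hm _ _ ht1
  linarith

variable {𝕜 : Type} [RCLike 𝕜]

theorem ev_RR_of_not {s t : Nd} (h : ¬ s <:+ t) (x : V 𝕜) : ev t (RR s x) = 0 := by
  rw [ev_RR, if_neg h]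

theorem RR_RR {s t : Nd} (h : s <:+ t) (x : V 𝕜) : RR s (RR t x) = RR t x := by
  apply ext_ev
  intro u
  by_cases hu : s <:+ u
  · rw [ev_RR s, if_pos hu]
    have h0 : ev s (RR t x) = 0 := by
      rw [ev_RR]
      split_ifs with h1
      · rw [h.eq_of_length (le_antisymm h.length_le h1.length_le), sub_self]
      · rfl
    rw [h0, sub_zero]
  · rw [ev_RR_of_not hu, ev_RR_of_not (fun h1 => hu (h.trans h1))]

theorem QQ_of {n : ℕ} {x : V 𝕜} (h : ∀ s : Nd, s.length ≤ n → ev s x = 0) : QQ n x = x := by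
  apply ext_ev
  intro t
  rw [ev_QQ, h (tr n t) (by rw [length_tr]; exact min_le_left _ _), sub_zero]

theorem ev_of_QQ {n : ℕ} {x : V 𝕜} (hx : QQ n x = x) {s : Nd} (hs : s.length ≤ n) : ev s x = 0 := by
  rw [← hx, ev_QQ, tr_of_le hs, sub_self]

theorem ev_QQ_le {n : ℕ} (x : V 𝕜) {s : Nd} (hs : s.length ≤ n) : ev s (QQ n x) = 0 := by
  rw [ev_QQ, tr_of_le hs, sub_self]

theorem adm_filter {F : Finset (Nd × Nd)} (hF : Adm F) (P : Nd × Nd → Prop) [DecidablePred P] :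
    Adm (F.filter P) :=
  ⟨fun p hp => hF.1 p (Finset.mem_filter.1 hp).1,
    fun p hp q hq => hF.2 p (Finset.mem_filter.1 hp).1 q (Finset.mem_filter.1 hq).1⟩

theorem cross (n : ℕ) (x y : V 𝕜) (η : ℝ) (hη : 0 ≤ η) (hx : PP n x = x) (hy : QQ n y = y)
    (hp : ∀ a b : Nd, a <:+ b → ‖ev b y - ev a y‖ ≤ η) :
    ‖x + y‖ ^ 2 ≤ ‖x‖ ^ 2 + ‖y‖ ^ 2 + 2 ^ (n + 1) * (‖x‖ * η) := by
  classical
  have h0 : 0 ≤ ‖x‖ ^ 2 + ‖y‖ ^ 2 + 2 ^ (n + 1) * (‖x‖ * η) := by positivity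
  have h1 : ‖x + y‖ ≤ Real.sqrt (‖x‖ ^ 2 + ‖y‖ ^ 2 + 2 ^ (n + 1) * (‖x‖ * η)) := by
    apply norm_le (Real.sqrt_nonneg _)
    intro F hF
    rw [Real.sq_sqrt h0]
    have hterm : ∀ p ∈ F, ‖ev p.2 (x + y) - ev p.1 (x + y)‖ ^ 2 ≤
        (‖ev p.2 x - ev p.1 x‖ ^ 2 + ‖ev p.2 y - ev p.1 y‖ ^ 2) +
          (if p.1.length < n ∧ n ≤ p.2.length then 2 * (‖x‖ * η) else 0) := by
      intro p hpF
      have hab := hF.1 p hpF
      have e1 : ev p.2 (x + y) - ev p.1 (x + y) =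
          (ev p.2 x - ev p.1 x) + (ev p.2 y - ev p.1 y) := by
        rw [map_add, map_add]
        ring
      rw [e1]
      by_cases h1 : n ≤ p.1.length
      · have hx0 : ev p.2 x - ev p.1 x = 0 := by
          rw [← hx, ev_PP, ev_PP, tr_eq_of_suffix hab h1, sub_self]
        rw [hx0, zero_add, norm_zero, if_neg (by omega)]
        apply le_of_eq
        ring
      · by_cases h2 : n ≤ p.2.length
        · rw [if_pos ⟨by omega, h2⟩]
          have h3 := path_le x hab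
          have h4 := hp p.1 p.2 hab
          have h5 := norm_add_le (ev p.2 x - ev p.1 x) (ev p.2 y - ev p.1 y)
          have h6 := norm_nonneg (ev p.2 x - ev p.1 x)
          have h7 := norm_nonneg (ev p.2 y - ev p.1 y)
          have h8 := norm_nonneg ((ev p.2 x - ev p.1 x) + (ev p.2 y - ev p.1 y))
          have h9 : ‖ev p.2 x - ev p.1 x‖ * ‖ev p.2 y - ev p.1 y‖ ≤ ‖x‖ * η :=
            mul_le_mul h3 h4 h7 (norm_nonneg _)
          have h10 : ‖(ev p.2 x - ev p.1 x) + (ev p.2 y - ev p.1 y)‖ ^ 2 ≤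
              (‖ev p.2 x - ev p.1 x‖ + ‖ev p.2 y - ev p.1 y‖) ^ 2 := pow_le_pow_left₀ h8 h5 2
          nlinarith
        · have hy0 : ev p.2 y - ev p.1 y = 0 := by
            have hl := hab.length_le
            rw [ev_of_QQ hy (by omega), ev_of_QQ hy (by omega), sub_self]
          rw [hy0, add_zero, norm_zero, if_neg (by omega)]
          apply le_of_eq
          ring
    refine (Finset.sum_le_sum hterm).trans ?_
    rw [Finset.sum_add_distrib, Finset.sum_add_distrib]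
    have hcard : (F.filter (fun p => p.1.length < n ∧ n ≤ p.2.length)).card ≤ 2 ^ n := by
      rw [← card_lev n]
      apply Finset.card_le_card_of_injOn (fun p => tr n p.2)
      · intro p hp
        rw [Finset.mem_coe, Finset.mem_filter] at hp
        rw [Finset.mem_coe, mem_lev, length_tr]
        omega
      · intro p hp q hq hpq
        by_contra hne
        rw [Finset.mem_coe, Finset.mem_filter] at hp hq
        have hpq' : tr n p.2 = tr n q.2 := hpq
        refine hF.2 p hp.1 q hq.1 hne (tr n p.2) ⟨?_, ?_⟩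
        · exact (inn_iff (hF.1 p hp.1)).2 ⟨tr_suffix _ _, by rw [length_tr]; omega⟩
        · rw [hpq']
          exact (inn_iff (hF.1 q hq.1)).2 ⟨tr_suffix _ _, by rw [length_tr]; omega⟩
    have hcard' : ((F.filter (fun p => p.1.length < n ∧ n ≤ p.2.length)).card : ℝ) ≤ 2 ^ n := by
      exact_mod_cast hcard
    have h2 : ∑ p ∈ F, (if p.1.length < n ∧ n ≤ p.2.length then 2 * (‖x‖ * η) else 0) ≤
        2 ^ (n + 1) * (‖x‖ * η) := by
      rw [← Finset.sum_filter, Finset.sum_const, nsmul_eq_mul]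
      have h3 : 0 ≤ 2 * (‖x‖ * η) := by positivity
      calc _ ≤ (2 : ℝ) ^ n * (2 * (‖x‖ * η)) := mul_le_mul_of_nonneg_right hcard' h3
        _ = 2 ^ (n + 1) * (‖x‖ * η) := by ring
    have h3 := fam_le x F hF
    have h4 := fam_le y F hF
    linarith
  calc ‖x + y‖ ^ 2 ≤ (Real.sqrt (‖x‖ ^ 2 + ‖y‖ ^ 2 + 2 ^ (n + 1) * (‖x‖ * η))) ^ 2 :=
        pow_le_pow_left₀ (norm_nonneg _) h1 2
    _ = _ := Real.sq_sqrt h0

theorem ev_sumRR (N : ℕ) (v : Nd → V 𝕜) (b : Nd) :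
    ev b (∑ t ∈ lev N, RR t (v t)) = if N ≤ b.length then ev b (RR (tr N b) (v (tr N b))) else 0 := by
  classical
  rw [map_sum]
  split_ifs with h
  · apply Finset.sum_eq_single (tr N b)
    · intro t ht hne
      apply ev_RR_of_not
      intro hs
      apply hne
      rw [mem_lev] at ht
      apply eq_of_suffix_length hs (tr_suffix _ _)
      rw [ht, length_tr]
      omega
    · intro hn
      exfalso
      apply hn
      rw [mem_lev, length_tr]
      omega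
  · apply Finset.sum_eq_zero
    intro t ht
    apply ev_RR_of_not
    intro hs
    rw [mem_lev] at ht
    have := hs.length_le
    omega

theorem QQ_eq_sum (N : ℕ) (x : V 𝕜) : QQ N x = ∑ t ∈ lev N, RR t x := by
  apply ext_ev
  intro b
  rw [ev_sumRR N (fun _ => x), ev_QQ]
  split_ifs with h
  · rw [ev_RR, if_pos (tr_suffix _ _)]
  · rw [tr_of_le (by omega), sub_self]

theorem diff_sumRR (N : ℕ) (v : Nd → V 𝕜) (a b : Nd) (hab : a <:+ b) :
    ev b (∑ t ∈ lev N, RR t (v t)) - ev a (∑ t ∈ lev N, RR t (v t)) =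
      if N ≤ b.length then ev b (RR (tr N b) (v (tr N b))) - ev a (RR (tr N b) (v (tr N b)))
        else 0 := by
  rw [ev_sumRR, ev_sumRR]
  by_cases hb : N ≤ b.length
  · rw [if_pos hb, if_pos hb]
    by_cases ha : N ≤ a.length
    · rw [if_pos ha, tr_eq_of_suffix hab ha]
    · rw [if_neg ha]
      have h1 : ¬ tr N b <:+ a := by
        intro h
        have h2 := h.length_le
        rw [length_tr] at h2
        omega
      rw [ev_RR_of_not h1]
  · have := hab.length_le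
    rw [if_neg hb, if_neg (by omega), if_neg hb, sub_self]

theorem norm_sumRR (N : ℕ) (v : Nd → V 𝕜) :
    ‖∑ t ∈ lev N, RR t (v t)‖ ^ 2 ≤ ∑ t ∈ lev N, ‖v t‖ ^ 2 := by
  classical
  have h0 : 0 ≤ ∑ t ∈ lev N, ‖v t‖ ^ 2 := Finset.sum_nonneg fun t _ => by positivity
  have h1 : ‖∑ t ∈ lev N, RR t (v t)‖ ≤ Real.sqrt (∑ t ∈ lev N, ‖v t‖ ^ 2) := by
    apply norm_le (Real.sqrt_nonneg _)
    intro F hF
    rw [Real.sq_sqrt h0]
    have e1 : ∑ p ∈ F, ‖ev p.2 (∑ t ∈ lev N, RR t (v t)) - ev p.1 (∑ t ∈ lev N, RR t (v t))‖ ^ 2 =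
        ∑ p ∈ F.filter (fun p => N ≤ p.2.length),
          ‖ev p.2 (RR (tr N p.2) (v (tr N p.2))) - ev p.1 (RR (tr N p.2) (v (tr N p.2)))‖ ^ 2 := by
      rw [Finset.sum_filter]
      apply Finset.sum_congr rfl
      intro p hp
      rw [diff_sumRR N v p.1 p.2 (hF.1 p hp)]
      split_ifs with h
      · rfl
      · rw [norm_zero]
        norm_num
    rw [e1, ← Finset.sum_fiberwise_of_maps_to (t := lev N) (g := fun p : Nd × Nd => tr N p.2)]
    · apply Finset.sum_le_sum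
      intro t _
      have e2 : ∑ p ∈ (F.filter (fun p => N ≤ p.2.length)).filter (fun p => tr N p.2 = t),
          ‖ev p.2 (RR (tr N p.2) (v (tr N p.2))) - ev p.1 (RR (tr N p.2) (v (tr N p.2)))‖ ^ 2 =
          ∑ p ∈ (F.filter (fun p => N ≤ p.2.length)).filter (fun p => tr N p.2 = t),
          ‖ev p.2 (RR t (v t)) - ev p.1 (RR t (v t))‖ ^ 2 := by
        apply Finset.sum_congr rfl
        intro p hp
        rw [(Finset.mem_filter.1 hp).2]
      rw [e2]
      refine (fam_le (RR t (v t)) _ (adm_filter (adm_filter hF _) _)).trans ?_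
      exact pow_le_pow_left₀ (norm_nonneg _) (RR_le _ _) 2
    · intro p hp
      have := (Finset.mem_filter.1 hp).2
      rw [mem_lev, length_tr]
      omega
  calc ‖∑ t ∈ lev N, RR t (v t)‖ ^ 2 ≤ (Real.sqrt (∑ t ∈ lev N, ‖v t‖ ^ 2)) ^ 2 :=
        pow_le_pow_left₀ (norm_nonneg _) h1 2
    _ = _ := Real.sq_sqrt h0

theorem near (g : V 𝕜 →L[𝕜] 𝕜) (e : ℝ) (he : 0 < e) :
    ∃ z : V 𝕜, ‖z‖ ≤ 1 ∧ (1 - e) * ‖g‖ ≤ RCLike.re (g z) := by
  by_cases hg : ‖g‖ = 0
  · refine ⟨0, by simp, ?_⟩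
    rw [hg, mul_zero, map_zero, map_zero]
  · have hg' : 0 < ‖g‖ := lt_of_le_of_ne (norm_nonneg _) (Ne.symm hg)
    obtain ⟨z, hz1, hz2⟩ := g.exists_lt_apply_of_lt_opNorm (r := (1 - e) * ‖g‖) (by nlinarith)
    obtain ⟨c, hc1, hc2⟩ := RCLike.exists_norm_eq_mul_self (g z)
    refine ⟨c • z, ?_, ?_⟩
    · rw [norm_smul, hc1, one_mul]
      exact hz1.le
    · rw [map_smul, smul_eq_mul, ← hc2, RCLike.ofReal_re]
      exact hz2.le

theorem taskC2 : TaskC2 𝕜 := by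
  classical
  intro f hf
  by_contra hc
  push Not at hc
  obtain ⟨ε0, hε0, hc⟩ := hc
  -- the norms on the cones
  let m : Nd → ℝ := fun s => ‖f.comp (RR s)‖
  have hm0 : ∀ s, 0 ≤ m s := fun s => norm_nonneg _
  have hmle : ∀ s x, ‖f (RR s x)‖ ≤ m s * ‖x‖ := fun s x => (f.comp (RR s)).le_opNorm x
  have hmono : ∀ s t : Nd, s <:+ t → m t ≤ m s := by
    intro s t hst
    refine ContinuousLinearMap.opNorm_le_bound _ (hm0 s) fun x => ?_
    show ‖f (RR t x)‖ ≤ _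
    rw [← RR_RR hst]
    exact (hmle s _).trans (mul_le_mul_of_nonneg_left (RR_le _ _) (hm0 s))
  have hkon := konig m hmono (fun γ δ hδ => by
    obtain ⟨n, hn⟩ := hf γ δ hδ
    exact ⟨n, ContinuousLinearMap.opNorm_le_bound _ hδ.le fun x => hn x⟩)
  -- the norms of the tails
  let l : ℕ → ℝ := fun n => ‖f.comp (QQ n)‖
  have hlle : ∀ n x, ‖f (QQ n x)‖ ≤ l n * ‖x‖ := fun n x => (f.comp (QQ n)).le_opNorm x
  have hl : ∀ n, ε0 ≤ l n := by
    intro n
    obtain ⟨x, hx⟩ := hc n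
    by_contra hcon
    push Not at hcon
    have h1 := hlle n x
    have h2 : l n * ‖x‖ ≤ ε0 * ‖x‖ := mul_le_mul_of_nonneg_right hcon.le (norm_nonneg _)
    linarith
  have hbdd : BddBelow (Set.range l) := ⟨ε0, by rintro _ ⟨n, rfl⟩; exact hl n⟩
  obtain ⟨L, hLe⟩ : ∃ L : ℝ, L = ⨅ n, l n := ⟨_, rfl⟩
  have hL0 : ε0 ≤ L := by rw [hLe]; exact le_ciInf hl
  have hLpos : 0 < L := lt_of_lt_of_le hε0 hL0
  have hLl : ∀ n, L ≤ l n := fun n => by rw [hLe]; exact ciInf_le hbdd n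
  obtain ⟨n, hn⟩ : ∃ n, l n < L * (1 + 1 / 100) := by
    apply exists_lt_of_ciInf_lt
    rw [← hLe]
    nlinarith
  -- the vector x
  obtain ⟨z, hz1, hz2⟩ := near (f.comp (QQ n)) (1 / 100) (by norm_num)
  have hz3 : (1 - 1 / 100) * L ≤ RCLike.re (f (QQ n z)) :=
    le_trans (mul_le_mul_of_nonneg_left (hLl n) (by norm_num)) hz2
  obtain ⟨n', hnn', hn'⟩ : ∃ n', n ≤ n' ∧ (1 - 2 / 100) * L ≤ RCLike.re (f (PP n' (QQ n z))) := by
    have h1 : Tendsto (fun k => RCLike.re (f (PP k (QQ n z)))) atTop (𝓝 (RCLike.re (f (QQ n z)))) :=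
      (RCLike.continuous_re.tendsto _).comp ((f.continuous.tendsto _).comp (tendsto_PP (QQ n z)))
    have h2 : ∀ᶠ k in atTop, (1 - 2 / 100) * L < RCLike.re (f (PP k (QQ n z))) :=
      h1.eventually (lt_mem_nhds (by nlinarith))
    obtain ⟨k, hk1, hk2⟩ := (h2.and (eventually_ge_atTop n)).exists
    exact ⟨k, hk2, hk1.le⟩
  obtain ⟨x, hxe⟩ : ∃ x : V 𝕜, x = PP n' (QQ n z) := ⟨_, rfl⟩
  rw [← hxe] at hn'
  have hx1 : ‖x‖ ≤ 1 := by
    rw [hxe]
    exact ((PP_le _ _).trans (QQ_le _ _)).trans hz1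
  have hxP : PP n' x = x := by
    apply ext_ev
    intro t
    rw [hxe, ev_PP, ev_PP, ev_PP, tr_of_le (n := n') (t := tr n' t)]
    rw [length_tr]
    exact min_le_left _ _
  have hxQ : QQ n x = x := by
    apply QQ_of
    intro s hs
    rw [hxe, ev_PP, tr_of_le (hs.trans hnn'), ev_QQ_le _ hs]
  -- the level N
  obtain ⟨δ, hδe⟩ : ∃ δ : ℝ, δ = L / (2 ^ (n' + 1) * 10) := ⟨_, rfl⟩
  have hδ0 : 0 < δ := by rw [hδe]; positivity
  obtain ⟨N0, hN0⟩ := hkon δ hδ0
  obtain ⟨N, hNe⟩ : ∃ N : ℕ, N = max N0 n' := ⟨_, rfl⟩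
  have hNN0 : N0 ≤ N := by rw [hNe]; exact le_max_left _ _
  have hNn' : n' ≤ N := by rw [hNe]; exact le_max_right _ _
  choose zt hzt1 hzt2 using fun t : Nd => near (f.comp (RR t)) (1 / 100) (by norm_num)
  obtain ⟨Q, hQe⟩ : ∃ Q : ℝ, Q = ∑ t ∈ lev N, m t ^ 2 := ⟨_, rfl⟩
  have hQ0 : 0 ≤ Q := by rw [hQe]; exact Finset.sum_nonneg fun t _ => by positivity
  obtain ⟨M, hMe⟩ : ∃ M : ℝ, M = Real.sqrt Q := ⟨_, rfl⟩
  have hM2 : M ^ 2 = Q := by rw [hMe]; exact Real.sq_sqrt hQ0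
  have hM0 : 0 ≤ M := by rw [hMe]; exact Real.sqrt_nonneg _
  have hML : L ≤ M := by
    refine (hLl N).trans ?_
    refine ContinuousLinearMap.opNorm_le_bound _ hM0 fun u => ?_
    show ‖f (QQ N u)‖ ≤ M * ‖u‖
    have h1 : f (QQ N u) = ∑ t ∈ lev N, f (RR t u) := by rw [QQ_eq_sum, map_sum]
    rw [h1]
    have h2 : ‖∑ t ∈ lev N, f (RR t u)‖ ≤ ∑ t ∈ lev N, m t * ‖RR t u‖ := by
      refine (norm_sum_le _ _).trans (Finset.sum_le_sum fun t _ => ?_)
      have h3 := hmle t (RR t u)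
      rwa [RR_RR (List.suffix_refl t)] at h3
    have h3 : (∑ t ∈ lev N, m t * ‖RR t u‖) ^ 2 ≤ Q * ‖u‖ ^ 2 := by
      refine (Finset.sum_mul_sq_le_sq_mul_sq _ _ _).trans ?_
      rw [← hQe]
      refine mul_le_mul_of_nonneg_left (sum_RR_le (lev N) ?_ u) hQ0
      intro s hs s' hs' hne hss
      rw [mem_lev] at hs hs'
      exact hne (hss.eq_of_length (by rw [hs, hs']))
    refine h2.trans (lesq ?_ (by positivity))
    rw [mul_pow, hM2]
    exact h3
  have hMpos : 0 < M := lt_of_lt_of_le hLpos hML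
  -- the vector y
  let v : Nd → V 𝕜 := fun t => ((m t / M : ℝ) : 𝕜) • zt t
  have hv : ∀ t, ‖v t‖ ≤ m t / M := by
    intro t
    show ‖((m t / M : ℝ) : 𝕜) • zt t‖ ≤ _
    rw [norm_smul, RCLike.norm_ofReal, abs_of_nonneg (div_nonneg (hm0 t) hM0)]
    exact mul_le_of_le_one_right (div_nonneg (hm0 t) hM0) (hzt1 t)
  obtain ⟨y, hye⟩ : ∃ y : V 𝕜, y = ∑ t ∈ lev N, RR t (v t) := ⟨_, rfl⟩
  have hy1 : ‖y‖ ^ 2 ≤ 1 := by
    rw [hye]
    refine (norm_sumRR N v).trans ?_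
    calc ∑ t ∈ lev N, ‖v t‖ ^ 2 ≤ ∑ t ∈ lev N, (m t / M) ^ 2 :=
          Finset.sum_le_sum fun t _ => pow_le_pow_left₀ (norm_nonneg _) (hv t) 2
      _ = (∑ t ∈ lev N, m t ^ 2) / M ^ 2 := by
          rw [Finset.sum_div]
          exact Finset.sum_congr rfl fun t _ => by rw [div_pow]
      _ = 1 := by rw [← hQe, hM2, div_self]; rw [← hM2]; positivity
      _ ≤ 1 := le_rfl
  have hyf : (1 - 1 / 100) * L ≤ RCLike.re (f y) := by
    have h1 : f y = ∑ t ∈ lev N, ((m t / M : ℝ) : 𝕜) * f (RR t (zt t)) := by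
      rw [hye, map_sum]
      refine Finset.sum_congr rfl fun t _ => ?_
      show f (RR t (((m t / M : ℝ) : 𝕜) • zt t)) = _
      rw [map_smul, map_smul, smul_eq_mul]
    rw [h1, map_sum]
    have h2 : ∀ t ∈ lev N, (1 - 1 / 100) / M * m t ^ 2 ≤
        RCLike.re (((m t / M : ℝ) : 𝕜) * f (RR t (zt t))) := by
      intro t _
      rw [RCLike.re_ofReal_mul]
      have h3 : (1 - 1 / 100) * m t ≤ RCLike.re (f (RR t (zt t))) := hzt2 t
      calc (1 - 1 / 100) / M * m t ^ 2 = m t / M * ((1 - 1 / 100) * m t) := by ring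
        _ ≤ _ := mul_le_mul_of_nonneg_left h3 (div_nonneg (hm0 t) hM0)
    refine le_trans ?_ (Finset.sum_le_sum h2)
    rw [← Finset.mul_sum, ← hQe, ← hM2]
    have h4 : (1 - 1 / 100) / M * M ^ 2 = (1 - 1 / 100) * M := by
      field_simp
    rw [h4]
    exact mul_le_mul_of_nonneg_left hML (by norm_num)
  have hyQ' : ∀ k, k ≤ N → QQ k y = y := by
    intro k hk
    apply QQ_of
    intro s hs
    rw [hye, ev_sumRR]
    split_ifs with h
    · have hs' : tr N s = s := tr_of_le (by omega)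
      rw [hs', ev_RR, if_pos (List.suffix_refl s), sub_self]
    · rfl
  have hyD : ∀ a b : Nd, a <:+ b → ‖ev b y - ev a y‖ ≤ δ / L := by
    intro a b hab
    rw [hye, diff_sumRR N v a b hab]
    split_ifs with h
    · refine (path_le _ hab).trans ((RR_le _ _).trans ((hv _).trans ?_))
      have h1 : m (tr N b) ≤ δ := by
        apply hN0
        rw [length_tr]
        omega
      exact div_le_div₀ hδ0.le h1 hLpos hML
    · rw [norm_zero]
      positivity
  have hcross := cross n' x y (δ / L) (by positivity) hxP (hyQ' n' hNn') hyD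
  have h1 : (2 : ℝ) ^ (n' + 1) * (‖x‖ * (δ / L)) ≤ 1 / 10 := by
    have h2 : (2 : ℝ) ^ (n' + 1) * (δ / L) = 1 / 10 := by
      rw [hδe]
      field_simp
    calc (2 : ℝ) ^ (n' + 1) * (‖x‖ * (δ / L)) = ‖x‖ * (2 ^ (n' + 1) * (δ / L)) := by ring
      _ ≤ 1 * (2 ^ (n' + 1) * (δ / L)) := mul_le_mul_of_nonneg_right hx1 (by positivity)
      _ = 1 / 10 := by rw [h2, one_mul]
  have h2 : ‖x + y‖ ^ 2 ≤ 21 / 10 := by
    have h3 : ‖x‖ ^ 2 ≤ 1 := pow_le_one₀ (norm_nonneg _) hx1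
    linarith
  have h3 : QQ n (x + y) = x + y := by
    rw [map_add, hxQ, hyQ' n (hnn'.trans hNn')]
  have h4 : RCLike.re (f (x + y)) ≤ L * (1 + 1 / 100) * ‖x + y‖ := by
    have h5 := hlle n (x + y)
    rw [h3] at h5
    have h6 : RCLike.re (f (x + y)) ≤ ‖f (x + y)‖ := RCLike.re_le_norm _
    have h7 : l n * ‖x + y‖ ≤ L * (1 + 1 / 100) * ‖x + y‖ :=
      mul_le_mul_of_nonneg_right hn.le (norm_nonneg _)
    linarith
  rw [map_add, map_add] at h4
  have h5 : L * (1 + 1 / 100) * ‖x + y‖ < L * (197 / 100) := by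
    have h6 : (1 + 1 / 100) * ‖x + y‖ < 197 / 100 := by
      have h7 := norm_nonneg (x + y)
      nlinarith
    calc L * (1 + 1 / 100) * ‖x + y‖ = L * ((1 + 1 / 100) * ‖x + y‖) := by ring
      _ < L * (197 / 100) := mul_lt_mul_of_pos_left h6 hLpos
  nlinarith

end Pool.Agent.H511R3.JT
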