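import Pool.Agent.H511R3.JT.E2

/-!
# Task 585-E, part 3: the bidual of the James tree space is not primary
-/

set_option autoImplicit false
open Filter Topology Finset
open scoped ENNReal ComplexConjugate

namespace Pool.Agent.H511R3.JT

open Pool.Agent.H585R4.JT

variable {𝕜 : Type} [RCLike 𝕜]

/-- A decreasing sequence of nonempty closed midpoint convex bounded sets in a complete normed
space satisfying the parallelogram law has a common point (after helper108's `nested`). -/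
theorem nested' {Z : Type} [NormedAddCommGroup Z] [NormedSpace 𝕜 Z] [CompleteSpace Z]
    (par : ∀ x y : Z, ‖x + y‖ ^ 2 + ‖x - y‖ ^ 2 = 2 * (‖x‖ ^ 2 + ‖y‖ ^ 2)) (K : ℕ → Set Z)
    (hmidK : ∀ n, ∀ x ∈ K n, ∀ y ∈ K n, (2 : 𝕜)⁻¹ • (x + y) ∈ K n) (hcl : ∀ n, IsClosed (K n))
    (hne : ∀ n, (K n).Nonempty) (hdec : ∀ n, K (n + 1) ⊆ K n) (C : ℝ)
    (hC : ∀ x ∈ K 0, ‖x‖ ≤ C) : ∃ x, ∀ n, x ∈ K n := by
  have hanti : Antitone K := antitone_nat_of_succ_le hdec
  let d : ℕ → ℝ := fun n => sInf ((fun x => ‖x‖) '' K n)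
  have hbdd : ∀ n, BddBelow ((fun x : Z => ‖x‖) '' K n) := fun n =>
    ⟨0, by rintro _ ⟨x, _, rfl⟩; exact norm_nonneg x⟩
  have hdle : ∀ n, ∀ x ∈ K n, d n ≤ ‖x‖ := fun n x hx => csInf_le (hbdd n) ⟨x, hx, rfl⟩
  have hd0 : ∀ n, 0 ≤ d n := fun n => le_csInf ((hne n).image _) (by
    rintro _ ⟨x, _, rfl⟩; exact norm_nonneg x)
  have hdmono : Monotone d := by
    intro n m hnm
    exact le_csInf ((hne m).image _) (by
      rintro _ ⟨x, hx, rfl⟩; exact hdle n x (hanti hnm hx))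
  have hdC : ∀ n, d n ≤ C := by
    intro n
    obtain ⟨x, hx⟩ := hne n
    exact (hdle n x hx).trans (hC x (hanti (Nat.zero_le n) hx))
  obtain ⟨D, hD⟩ : ∃ D, Tendsto d atTop (𝓝 D) :=
    ⟨_, tendsto_atTop_ciSup hdmono ⟨C, by rintro _ ⟨n, rfl⟩; exact hdC n⟩⟩
  have hdD : ∀ n, d n ≤ D := fun n => hdmono.ge_of_tendsto hD n
  have hsel : ∀ n : ℕ, ∃ x ∈ K n, ‖x‖ ≤ d n + 1 / ((n : ℝ) + 1) := by
    intro n
    obtain ⟨_, ⟨x, hx, rfl⟩, h⟩ := exists_lt_of_csInf_lt ((hne n).image (fun x => ‖x‖))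
      (lt_add_of_pos_right (d n) (by positivity : (0 : ℝ) < 1 / ((n : ℝ) + 1)))
    exact ⟨x, hx, h.le⟩
  choose x hxK hxn using hsel
  let b : ℕ → ℝ := fun n => 4 * (D + 1 / ((n : ℝ) + 1)) ^ 2 - 4 * d n ^ 2
  have hb : ∀ n m, n ≤ m → ‖x n - x m‖ ^ 2 ≤ b n := by
    intro n m hnm
    have h1 := par (x n) (x m)
    have hmid := hmidK n (x n) (hxK n) (x m) (hanti hnm (hxK m))
    have h2 := hdle n _ hmid
    have h3 : ‖(2 : 𝕜)⁻¹ • (x n + x m)‖ = 1 / 2 * ‖x n + x m‖ := by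
      rw [norm_smul, norm_inv, RCLike.norm_ofNat]
      norm_num
    rw [h3] at h2
    have h4 : 4 * d n ^ 2 ≤ ‖x n + x m‖ ^ 2 := by
      have := hd0 n
      nlinarith [norm_nonneg (x n + x m)]
    have hn0 : (0 : ℝ) < 1 / ((n : ℝ) + 1) := by positivity
    have hm0 : (0 : ℝ) < 1 / ((m : ℝ) + 1) := by positivity
    have hmn : 1 / ((m : ℝ) + 1) ≤ 1 / ((n : ℝ) + 1) := by
      apply one_div_le_one_div_of_le (by positivity)
      have : (n : ℝ) ≤ m := by exact_mod_cast hnm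
      linarith
    have h5 : ‖x n‖ ^ 2 ≤ (D + 1 / ((n : ℝ) + 1)) ^ 2 := by
      have : ‖x n‖ ≤ D + 1 / ((n : ℝ) + 1) := (hxn n).trans (by linarith [hdD n])
      exact pow_le_pow_left₀ (norm_nonneg _) this 2
    have h6 : ‖x m‖ ^ 2 ≤ (D + 1 / ((n : ℝ) + 1)) ^ 2 := by
      have : ‖x m‖ ≤ D + 1 / ((n : ℝ) + 1) := (hxn m).trans (by linarith [hdD m])
      exact pow_le_pow_left₀ (norm_nonneg _) this 2
    show _ ≤ 4 * (D + 1 / ((n : ℝ) + 1)) ^ 2 - 4 * d n ^ 2
    linarith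
  have hb0 : Tendsto b atTop (𝓝 0) := by
    have h1 : Tendsto (fun n : ℕ => 1 / ((n : ℝ) + 1)) atTop (𝓝 0) :=
      tendsto_one_div_add_atTop_nhds_zero_nat
    have h2 : Tendsto b atTop (𝓝 (4 * (D + 0) ^ 2 - 4 * D ^ 2)) :=
      (((tendsto_const_nhds.add h1).pow 2).const_mul 4).sub ((hD.pow 2).const_mul 4)
    simpa using h2
  have hsq : Tendsto (fun n => Real.sqrt (b n)) atTop (𝓝 0) := by
    have h := (Real.continuous_sqrt.tendsto 0).comp hb0
    rw [Real.sqrt_zero] at h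
    exact h
  have hcau : CauchySeq x := by
    apply cauchySeq_of_le_tendsto_0' (fun n => Real.sqrt (b n))
    · intro n m hnm
      rw [dist_eq_norm]
      exact Real.le_sqrt_of_sq_le (hb n m hnm)
    · exact hsq
  obtain ⟨y, hy⟩ := cauchySeq_tendsto_of_complete hcau
  refine ⟨y, fun n => ?_⟩
  exact (hcl n).mem_of_tendsto hy
    (eventually_atTop.2 ⟨n, fun m hm => hanti hm (hxK m)⟩)

theorem not_sep_of {X : Type} [NormedAddCommGroup X] (L : (ℕ → Bool) → X)
    (hdist : ∀ γ γ' : ℕ → Bool, γ ≠ γ' → 1 ≤ ‖L γ - L γ'‖) :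
    ¬ TopologicalSpace.SeparableSpace X := by
  intro hsep
  have hc : Countable (ℕ → Bool) := by
    refine Pairwise.countable_of_isOpen_disjoint
      (s := fun γ : ℕ → Bool => Metric.ball (L γ) (1 / 2))
      ?_ (fun γ => Metric.isOpen_ball) (fun γ => ⟨_, Metric.mem_ball_self (by norm_num)⟩)
    intro γ γ' hne
    refine Metric.ball_disjoint_ball ?_
    rw [dist_eq_norm]
    have := hdist γ γ' hne
    linarith
  obtain ⟨f, hf⟩ := exists_surjective_nat (ℕ → Bool)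
  obtain ⟨n, hn⟩ := hf (fun k => !(f k k))
  have h := congrFun hn n
  simp at h

/-- abstract form of the argument -/
theorem not_primary_of {X E : Type} [NormedAddCommGroup X] [NormedSpace 𝕜 X] [CompleteSpace X]
    [NormedAddCommGroup E] [NormedSpace 𝕜 E] [CompleteSpace E]
    (j : E →L[𝕜] X) (hj : ∀ x, ‖j x‖ = ‖x‖) (g : Nd → X →L[𝕜] 𝕜)
    (hpart : ∀ z, ∃ x, ∀ t, g t (j x) = g t z) (hinj : ∀ x, (∀ t, g t (j x) = 0) → x = 0)
    (par : ∀ z w : X, (∀ t, g t z = 0) → (∀ t, g t w = 0) →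
      ‖z + w‖ ^ 2 + ‖z - w‖ ^ 2 = 2 * (‖z‖ ^ 2 + ‖w‖ ^ 2))
    (hnsep : ¬ TopologicalSpace.SeparableSpace X) (hsepE : TopologicalSpace.SeparableSpace E)
    (e : ℕ → E) (he : ∀ m, ‖e m‖ ≤ 1) (hge : ∀ t, ∃ n, ∀ m, n ≤ m → g t (j (e m)) = 0)
    (b : X →L[𝕜] 𝕜) (hb : ∃ n, ∀ m, n ≤ m → b (j (e m)) = 1) : ¬ IsPrimary 𝕜 X := by
  intro hprim
  let Y : Submodule 𝕜 X := LinearMap.range j.toLinearMap
  let Z : Submodule 𝕜 X :=
    { carrier := {z | ∀ t, g t z = 0}
      add_mem' := by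
        intro z w hz hw t
        rw [map_add, hz t, hw t, add_zero]
      zero_mem' := fun t => map_zero (g t)
      smul_mem' := by
        intro c z hz t
        rw [map_smul, hz t, smul_zero] }
  have hiso : Isometry j := AddMonoidHomClass.isometry_of_norm j hj
  have hYc : IsClosed (Y : Set X) := by
    have h := hiso.isClosedEmbedding.isClosed_range
    convert! h using 1
  have hZc : IsClosed (Z : Set X) := by
    have h : (Z : Set X) = ⋂ t : Nd, {z | g t z = 0} := by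
      ext z
      simp only [Set.mem_iInter, Set.mem_ofPred_eq, SetLike.mem_coe]
      rfl
    rw [h]
    exact isClosed_iInter fun t => isClosed_eq (g t).continuous continuous_const
  have hcompl : IsCompl Y Z := by
    constructor
    · rw [Submodule.disjoint_def]
      rintro _ ⟨x, rfl⟩ hx
      have h1 : x = 0 := hinj x fun t => hx t
      rw [h1, map_zero]
    · rw [Submodule.codisjoint_iff_exists_add_eq]
      intro z
      obtain ⟨x, hx⟩ := hpart z
      refine ⟨j x, z - j x, ⟨x, rfl⟩, fun t => ?_, by abel⟩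
      rw [map_sub, hx, sub_self]
  rcases hprim.2 Y Z hYc hZc hcompl with ⟨⟨ψ⟩⟩ | ⟨⟨φ⟩⟩
  · -- the range of `j` is separable
    apply hnsep
    let q : E → X := fun x => ψ ⟨j x, ⟨x, rfl⟩⟩
    have hq : Continuous q := ψ.continuous.comp (j.continuous.subtype_mk _)
    have hsurj : Function.Surjective q := by
      intro z
      obtain ⟨⟨_, x, rfl⟩, hy⟩ := ψ.surjective z
      exact ⟨x, hy⟩
    exact hsurj.denseRange.separableSpace hq
  · -- nested sets in `Z`
    have hZcomp : CompleteSpace Z := hZc.completeSpace_coe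
    let u : ℕ → Z := fun m => φ.symm (j (e m))
    let K : ℕ → Set Z := fun n => ⋂₀ {C | IsClosed C ∧
      (∀ x ∈ C, ∀ y ∈ C, (2 : 𝕜)⁻¹ • (x + y) ∈ C) ∧ ∀ m, n ≤ m → u m ∈ C}
    have hbig : ∀ (n : ℕ) (C : Set Z), IsClosed C →
        (∀ x ∈ C, ∀ y ∈ C, (2 : 𝕜)⁻¹ • (x + y) ∈ C) → (∀ m, n ≤ m → u m ∈ C) → K n ⊆ C :=
      fun n C h3 h4 h5 => Set.sInter_subset_of_mem ⟨h3, h4, h5⟩
    obtain ⟨R, hRe⟩ : ∃ R : ℝ, R = ‖(φ.symm : X →L[𝕜] Z)‖ := ⟨_, rfl⟩
    have hR0 : 0 ≤ R := by rw [hRe]; exact norm_nonneg _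
    have huR : ∀ m, ‖u m‖ ≤ R := fun m => by
      have h3 := (φ.symm : X →L[𝕜] Z).le_opNorm (j (e m))
      rw [← hRe, hj] at h3
      exact h3.trans (mul_le_of_le_one_right hR0 (he m))
    obtain ⟨ζ, hζ⟩ := nested' (𝕜 := 𝕜) (Z := Z)
      (fun x y => par x.1 y.1 x.2 y.2) K
      (by
        intro n x hx y hy C hC
        exact hC.2.1 x (hx C hC) y (hy C hC))
      (fun n => isClosed_sInter fun C hC => hC.1)
      (fun n => ⟨u n, fun C hC => hC.2.2 n le_rfl⟩)
      (by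
        intro n x hx C hC
        exact hx C ⟨hC.1, hC.2.1, fun m hm => hC.2.2 m (by omega)⟩)
      R
      (by
        intro x hx
        have h3 := hbig 0 (Metric.closedBall 0 R) Metric.isClosed_closedBall
          (by
            intro x hx y hy
            rw [mem_closedBall_zero_iff] at hx hy ⊢
            rw [norm_smul, norm_inv, RCLike.norm_ofNat]
            have := norm_add_le x y
            linarith)
          (fun m _ => by
            rw [mem_closedBall_zero_iff]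
            exact huR m) hx
        rwa [mem_closedBall_zero_iff] at h3)
    have hφu : ∀ m, φ (u m) = j (e m) := fun m => φ.apply_symm_apply _
    have hr : φ ζ ∈ Y := by
      refine hbig 0 {x | φ x ∈ Y} (hYc.preimage φ.continuous) ?_ ?_ (hζ 0)
      · intro x hx y hy
        show φ ((2 : 𝕜)⁻¹ • (x + y)) ∈ Y
        rw [map_smul, map_add]
        exact Submodule.smul_mem _ _ (Submodule.add_mem _ hx hy)
      · intro m _
        show φ (u m) ∈ Y
        rw [hφu]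
        exact ⟨_, rfl⟩
    have hev : ∀ t : Nd, g t (φ ζ) = 0 := by
      intro t
      obtain ⟨n, hn⟩ := hge t
      refine hbig n {x | g t (φ x) = 0}
        (isClosed_eq ((g t).continuous.comp φ.continuous) continuous_const) ?_ ?_ (hζ _)
      · intro x hx y hy
        show g t (φ ((2 : 𝕜)⁻¹ • (x + y))) = 0
        have hx' : g t (φ x) = 0 := hx
        have hy' : g t (φ y) = 0 := hy
        rw [map_smul, map_add, map_smul, map_add, hx', hy', add_zero, smul_zero]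
      · intro m hm
        show g t (φ (u m)) = 0
        rw [hφu, hn m hm]
    have hbb : b (φ ζ) = 1 := by
      obtain ⟨n, hn⟩ := hb
      refine hbig n {x | b (φ x) = 1}
        (isClosed_eq (b.continuous.comp φ.continuous) continuous_const) ?_ ?_ (hζ _)
      · intro x hx y hy
        show b (φ ((2 : 𝕜)⁻¹ • (x + y))) = 1
        have hx' : b (φ x) = 1 := hx
        have hy' : b (φ y) = 1 := hy
        rw [map_smul, map_add, map_smul, map_add, hx', hy', one_add_one_eq_two, smul_eq_mul]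
        exact inv_mul_cancel₀ two_ne_zero
      · intro m hm
        show b (φ (u m)) = 1
        rw [hφu, hn m hm]
    obtain ⟨x, hx⟩ := hr
    have hx0 : x = 0 := by
      apply hinj
      intro t
      have h3 := hev t
      rw [← hx] at h3
      exact h3
    rw [← hx, hx0, map_zero, map_zero] at hbb
    exact zero_ne_one hbb

/-- every element of the bidual gives an element of the space with the same values -/
theorem exists_part (z : StrongDual 𝕜 (StrongDual 𝕜 (V 𝕜))) : ∃ x : V 𝕜, ∀ t, ev t x = z (ev t) := by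
  classical
  have h0 : (ev [] : StrongDual 𝕜 (V 𝕜)) = 0 := by
    ext x
    exact ev_nil x
  obtain ⟨x, hx, _⟩ := exists_mk (𝕜 := 𝕜) (fun t => z (ev t)) (by
    show z (ev []) = 0
    rw [h0, map_zero]) (C := ‖z‖) (norm_nonneg z) (by
    intro F hF
    have hs0 : 0 ≤ ∑ p ∈ F, ‖z (ev p.2) - z (ev p.1)‖ ^ 2 := Finset.sum_nonneg fun i _ => by positivity
    apply le_sq_of hs0
    have e1 : z (∑ p ∈ F, conj (z (ev p.2) - z (ev p.1)) • ((ev p.2 : StrongDual 𝕜 (V 𝕜)) - ev p.1)) =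
        ((∑ p ∈ F, ‖z (ev p.2) - z (ev p.1)‖ ^ 2 : ℝ) : 𝕜) := by
      rw [map_sum, RCLike.ofReal_sum]
      refine Finset.sum_congr rfl fun p _ => ?_
      have e0 : z ((ev p.2 : StrongDual 𝕜 (V 𝕜)) - ev p.1) = z (ev p.2) - z (ev p.1) := map_sub z _ _
      rw [map_smul, e0, smul_eq_mul, RCLike.conj_mul, RCLike.ofReal_pow]
    have h2 := z.le_opNorm
      (∑ p ∈ F, conj (z (ev p.2) - z (ev p.1)) • ((ev p.2 : StrongDual 𝕜 (V 𝕜)) - ev p.1))
    rw [e1, RCLike.norm_ofReal, abs_of_nonneg hs0] at h2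
    refine h2.trans (mul_le_mul_of_nonneg_left ?_ (norm_nonneg z))
    refine ContinuousLinearMap.opNorm_le_bound _ (Real.sqrt_nonneg _) fun x => ?_
    have e2 : (∑ p ∈ F, conj (z (ev p.2) - z (ev p.1)) • ((ev p.2 : StrongDual 𝕜 (V 𝕜)) - ev p.1) :
        StrongDual 𝕜 (V 𝕜)) x = ∑ p ∈ F, conj (z (ev p.2) - z (ev p.1)) * (ev p.2 x - ev p.1 x) := by
      rw [_root_.sum_apply]
      rfl
    rw [e2]
    have h3 : ‖∑ p ∈ F, conj (z (ev p.2) - z (ev p.1)) * (ev p.2 x - ev p.1 x)‖ ≤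
        ∑ p ∈ F, ‖z (ev p.2) - z (ev p.1)‖ * ‖ev p.2 x - ev p.1 x‖ :=
      (norm_sum_le _ _).trans (le_of_eq (Finset.sum_congr rfl fun p _ => by
        rw [norm_mul, RCLike.norm_conj]))
    exact h3.trans (cs_bound F _ _ ‖x‖ (fun _ => norm_nonneg _) (fun _ => norm_nonneg _)
      (norm_nonneg _) (fam_le x F hF)))
  exact ⟨x, hx⟩

theorem sep_V : TopologicalSpace.SeparableSpace (V 𝕜) := by
  rw [← TopologicalSpace.isSeparable_univ_iff]
  have h1 : TopologicalSpace.IsSeparable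
      (closure ((Submodule.span 𝕜 (Set.range (fun s : Nd => (ee s : V 𝕜))) : Submodule 𝕜 (V 𝕜)) : Set (V 𝕜))) :=
    ((Set.countable_range _).isSeparable.span (R := 𝕜)).closure
  refine h1.mono fun x _ => ?_
  refine mem_closure_of_tendsto (tendsto_PP x) (Filter.Eventually.of_forall fun n => ?_)
  rw [SetLike.mem_coe]
  induction n with
  | zero =>
    rw [PP_zero]
    exact Submodule.zero_mem _
  | succ n ih =>
    rw [PP_succ]
    refine Submodule.add_mem _ ih (Submodule.sum_mem _ fun s _ => Submodule.smul_mem _ _ ?_)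
    exact Submodule.subset_span ⟨s, rfl⟩

theorem Lam_dist (γ γ' : ℕ → Bool) (hne : γ ≠ γ') :
    1 ≤ ‖(Lam γ : StrongDual 𝕜 (StrongDual 𝕜 (V 𝕜))) - Lam γ'‖ := by
  have h1 := ((Lam γ : StrongDual 𝕜 (StrongDual 𝕜 (V 𝕜))) - Lam γ').le_opNorm (bb γ)
  have h2 : (Lam γ - Lam γ' : StrongDual 𝕜 (StrongDual 𝕜 (V 𝕜))) (bb γ) = 1 := by
    have e1 : Lam γ (bb γ : StrongDual 𝕜 (V 𝕜)) = 1 := Lam_bb_self γ
    have e2 : Lam γ' (bb γ : StrongDual 𝕜 (V 𝕜)) = 0 := Lam_bb_ne hne.symm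
    show Lam γ (bb γ : StrongDual 𝕜 (V 𝕜)) - Lam γ' (bb γ : StrongDual 𝕜 (V 𝕜)) = 1
    rw [e1, e2, sub_zero]
  rw [h2, norm_one] at h1
  have h3 : ‖(bb γ : StrongDual 𝕜 (V 𝕜))‖ ≤ 1 :=
    ContinuousLinearMap.opNorm_le_bound _ zero_le_one fun x => by
      rw [one_mul]
      exact bb_le γ x
  have h4 := norm_nonneg ((Lam γ : StrongDual 𝕜 (StrongDual 𝕜 (V 𝕜))) - Lam γ')
  nlinarith

theorem taskE : TaskE 𝕜 := by
  intro h1 h2
  have hnsep : ¬ TopologicalSpace.SeparableSpace (StrongDual 𝕜 (StrongDual 𝕜 (V 𝕜))) :=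
    not_sep_of (fun γ => (Lam γ : StrongDual 𝕜 (StrongDual 𝕜 (V 𝕜)))) Lam_dist
  refine not_primary_of (𝕜 := 𝕜) (NormedSpace.inclusionInDoubleDual 𝕜 (V 𝕜))
    (fun x => (NormedSpace.inclusionInDoubleDualLi (E := V 𝕜) 𝕜).norm_map x)
    (fun t => ContinuousLinearMap.apply 𝕜 𝕜 (ev t : StrongDual 𝕜 (V 𝕜)))
    (fun z => exists_part z) ?_ (fun z w hz hw => par_z h1 h2 z w hz hw) hnsep sep_V
    (fun m => ee (bn (fun _ => true) m)) (fun m => ee_le _) ?_
    (ContinuousLinearMap.apply 𝕜 𝕜 (bb (fun _ => true) : StrongDual 𝕜 (V 𝕜))) ?_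
  · intro x hx
    apply ext_ev
    intro t
    rw [map_zero]
    exact hx t
  · intro t
    refine ⟨t.length + 1, fun m hm => ?_⟩
    show ev t (ee (bn (fun _ => true) m) : V 𝕜) = 0
    rw [ev_ee, if_neg]
    rintro ⟨h3, _⟩
    have := h3.length_le
    rw [length_bn] at this
    omega
  · refine ⟨1, fun m hm => ?_⟩
    show bb (fun _ => true) (ee (bn (fun _ => true) m) : V 𝕜) = 1
    rw [bb_ee _ _ hm, if_pos rfl]

end Pool.Agent.H511R3.JT
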