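import Pool.Agent.H585R4.JT.Stmts
import Pool.Agent.H511R3.JT.C2

/-!
# Task 585-E, part 1: branch functionals on the James tree space and its dual
-/

set_option autoImplicit false
open Filter Topology Finset
open scoped ENNReal ComplexConjugate

namespace Pool.Agent.H511R3.JT

open Pool.Agent.H585R4.JT

variable {𝕜 : Type} [RCLike 𝕜]

/-! ### limits along an ultrafilter -/

theorem exists_ulim {E : Type} [NormedAddCommGroup E] [NormedSpace 𝕜 E] (g : ℕ → StrongDual 𝕜 E)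
    (hg : ∀ n x, ‖g n x‖ ≤ ‖x‖) :
    ∃ G : StrongDual 𝕜 E, (∀ x, ‖G x‖ ≤ ‖x‖) ∧
      ∀ x, Tendsto (fun n => g n x) (hyperfilter ℕ : Filter ℕ) (𝓝 (G x)) := by
  have h1 : ∀ x, ∃ y : 𝕜, Tendsto (fun n => g n x) (hyperfilter ℕ : Filter ℕ) (𝓝 y) := by
    intro x
    have hc : IsCompact (Metric.closedBall (0 : 𝕜) ‖x‖) := isCompact_closedBall _ _
    obtain ⟨y, _, hy⟩ := hc.ultrafilter_le_nhds ((hyperfilter ℕ).map (fun n => g n x)) (by
      rw [Ultrafilter.coe_map, le_principal_iff, Filter.mem_map]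
      exact Eventually.of_forall fun n => by
        show g n x ∈ Metric.closedBall (0 : 𝕜) ‖x‖
        rw [mem_closedBall_zero_iff]
        exact hg n x)
    exact ⟨y, hy⟩
  choose G hG using h1
  let L : E →ₗ[𝕜] 𝕜 :=
    { toFun := G
      map_add' := fun x y => tendsto_nhds_unique (hG (x + y))
        (((hG x).add (hG y)).congr fun n => (map_add (g n) x y).symm)
      map_smul' := fun c x => tendsto_nhds_unique (hG (c • x))
        (((hG x).const_smul c).congr fun n => (map_smul (g n) c x).symm) }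
  have hb : ∀ x, ‖L x‖ ≤ 1 * ‖x‖ := fun x => by
    rw [one_mul]
    exact le_of_tendsto (hG x).norm (Eventually.of_forall fun n => hg n x)
  exact ⟨L.mkContinuous 1 hb, fun x => by simpa using hb x, hG⟩

theorem ex_bb (γ : ℕ → Bool) : ∃ G : StrongDual 𝕜 (V 𝕜), (∀ x, ‖G x‖ ≤ ‖x‖) ∧
    ∀ x, Tendsto (fun n => ev (bn γ n) x) (hyperfilter ℕ : Filter ℕ) (𝓝 (G x)) :=
  exists_ulim (fun n => ev (bn γ n)) (fun n x => ev_le x _)

/-- the branch functional -/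
noncomputable def bb (γ : ℕ → Bool) : StrongDual 𝕜 (V 𝕜) := (ex_bb γ).choose

theorem bb_le (γ : ℕ → Bool) (x : V 𝕜) : ‖bb γ x‖ ≤ ‖x‖ := (ex_bb γ).choose_spec.1 x

theorem bb_lim (γ : ℕ → Bool) (x : V 𝕜) :
    Tendsto (fun n => ev (bn γ n) x) (hyperfilter ℕ : Filter ℕ) (𝓝 (bb γ x)) :=
  (ex_bb γ).choose_spec.2 x

theorem ex_Lam (γ : ℕ → Bool) : ∃ G : StrongDual 𝕜 (StrongDual 𝕜 (V 𝕜)), (∀ f, ‖G f‖ ≤ ‖f‖) ∧
    ∀ f : StrongDual 𝕜 (V 𝕜),
      Tendsto (fun n => f (ee (bn γ n))) (hyperfilter ℕ : Filter ℕ) (𝓝 (G f)) :=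
  exists_ulim (fun n => NormedSpace.inclusionInDoubleDual 𝕜 (V 𝕜) (ee (bn γ n)))
    (fun n f => by
      show ‖f (ee (bn γ n))‖ ≤ ‖f‖
      calc ‖f (ee (bn γ n))‖ ≤ ‖f‖ * ‖(ee (bn γ n) : V 𝕜)‖ := f.le_opNorm _
        _ ≤ ‖f‖ * 1 := mul_le_mul_of_nonneg_left (ee_le _) (norm_nonneg _)
        _ = ‖f‖ := mul_one _)

/-- the limit of the basis vectors along the branch in the bidual -/
noncomputable def Lam (γ : ℕ → Bool) : StrongDual 𝕜 (StrongDual 𝕜 (V 𝕜)) := (ex_Lam γ).choose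

theorem Lam_le (γ : ℕ → Bool) (f : StrongDual 𝕜 (V 𝕜)) : ‖Lam γ f‖ ≤ ‖f‖ :=
  (ex_Lam γ).choose_spec.1 f

theorem Lam_lim (γ : ℕ → Bool) (f : StrongDual 𝕜 (V 𝕜)) :
    Tendsto (fun n => f (ee (bn γ n))) (hyperfilter ℕ : Filter ℕ) (𝓝 (Lam γ f)) :=
  (ex_Lam γ).choose_spec.2 f

theorem hyp_le : (hyperfilter ℕ : Filter ℕ) ≤ atTop := by
  rw [← Nat.cofinite_eq_atTop]
  exact hyperfilter_le_cofinite

theorem hyp_ge (N : ℕ) : ∀ᶠ n in (hyperfilter ℕ : Filter ℕ), N ≤ n :=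
  hyp_le (eventually_ge_atTop N)

/-! ### branches -/

theorem length_bn (γ : ℕ → Bool) (n : ℕ) : (bn γ n).length = n := by
  induction n with
  | zero => rfl
  | succ n ih =>
    show (γ n :: bn γ n).length = n + 1
    rw [List.length_cons, ih]

theorem bn_ne_nil (γ : ℕ → Bool) {n : ℕ} (h : 1 ≤ n) : bn γ n ≠ [] := by
  intro h0
  have := length_bn γ n
  rw [h0] at this
  simp at this
  omega

theorem bn_suffix (γ : ℕ → Bool) {n m : ℕ} (h : n ≤ m) : bn γ n <:+ bn γ m := by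
  induction m with
  | zero =>
    rw [Nat.le_zero.1 h]
  | succ m ih =>
    rcases Nat.lt_or_ge n (m + 1) with h1 | h1
    · exact (ih (by omega)).trans (List.suffix_cons _ _)
    · rw [le_antisymm h h1]

theorem bn_eq_of_le {γ γ' : ℕ → Bool} {n m : ℕ} (h : n ≤ m) (he : bn γ m = bn γ' m) :
    bn γ n = bn γ' n := by
  have h1 := bn_suffix γ h
  have h2 := bn_suffix γ' h
  rw [← he] at h2
  exact eq_of_suffix_length h1 h2 (by rw [length_bn, length_bn])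

theorem ev_sep {γ γ' : ℕ → Bool} (h : γ ≠ γ') : ∃ n0, ∀ n, n0 ≤ n → bn γ n ≠ bn γ' n := by
  obtain ⟨i, hi⟩ := Function.ne_iff.1 h
  refine ⟨i + 1, fun n hn he => ?_⟩
  have h1 := bn_eq_of_le hn he
  exact hi (List.cons.inj h1).1

theorem exists_sep (G : Finset (ℕ → Bool)) : ∃ n0, ∀ γ ∈ G, ∀ γ' ∈ G, γ ≠ γ' →
    ∀ n, n0 ≤ n → bn γ n ≠ bn γ' n := by
  classical
  have h1 : ∀ p : (ℕ → Bool) × (ℕ → Bool), ∃ n0 : ℕ, p.1 ≠ p.2 →
      ∀ n, n0 ≤ n → bn p.1 n ≠ bn p.2 n := by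
    intro p
    by_cases h : p.1 = p.2
    · exact ⟨0, fun h' => absurd h h'⟩
    · obtain ⟨n0, hn0⟩ := ev_sep h
      exact ⟨n0, fun _ => hn0⟩
  choose N hN using h1
  refine ⟨(G ×ˢ G).sup N, fun γ hγ γ' hγ' hne n hn => ?_⟩
  refine hN (γ, γ') hne n (le_trans ?_ hn)
  exact Finset.le_sup (f := N) (Finset.mem_product.2 ⟨hγ, hγ'⟩)

theorem suffix_bn_iff {t : Nd} {γ : ℕ → Bool} {m : ℕ} (h : t <:+ bn γ m) : t = bn γ t.length := by
  have h1 : t.length ≤ m := by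
    have := h.length_le
    rwa [length_bn] at this
  exact eq_of_suffix_length h (bn_suffix γ h1) (by rw [length_bn])

/-! ### values -/

theorem bb_ee (γ γ' : ℕ → Bool) {n : ℕ} (hn : 1 ≤ n) :
    bb γ' (ee (bn γ n) : V 𝕜) = if bn γ n = bn γ' n then 1 else 0 := by
  refine tendsto_nhds_unique (bb_lim γ' (ee (bn γ n) : V 𝕜)) ?_
  refine tendsto_const_nhds.congr' ?_
  filter_upwards [hyp_ge n] with m hm
  rw [ev_ee]
  by_cases h : bn γ n = bn γ' n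
  · rw [if_pos h, if_pos ⟨by rw [h]; exact bn_suffix γ' hm, bn_ne_nil γ hn⟩]
  · rw [if_neg h, if_neg]
    rintro ⟨h1, _⟩
    have h2 := suffix_bn_iff h1
    rw [length_bn] at h2
    exact h h2

theorem Lam_bb_self (γ : ℕ → Bool) : Lam γ (bb γ : StrongDual 𝕜 (V 𝕜)) = 1 := by
  refine tendsto_nhds_unique (Lam_lim γ (bb γ)) ?_
  refine tendsto_const_nhds.congr' ?_
  filter_upwards [hyp_ge 1] with n hn
  rw [bb_ee γ γ hn, if_pos rfl]

theorem Lam_bb_ne {γ γ' : ℕ → Bool} (h : γ ≠ γ') : Lam γ (bb γ' : StrongDual 𝕜 (V 𝕜)) = 0 := by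
  refine tendsto_nhds_unique (Lam_lim γ (bb γ')) ?_
  obtain ⟨n0, hn0⟩ := ev_sep h
  refine tendsto_const_nhds.congr' ?_
  filter_upwards [hyp_ge 1, hyp_ge n0] with n hn hn'
  rw [bb_ee γ γ' hn, if_neg (hn0 n hn')]

theorem Lam_ev (γ : ℕ → Bool) (s : Nd) : Lam γ (ev s : StrongDual 𝕜 (V 𝕜)) = 0 := by
  refine tendsto_nhds_unique (Lam_lim γ (ev s)) ?_
  refine tendsto_const_nhds.congr' ?_
  filter_upwards [hyp_ge (s.length + 1)] with n hn
  rw [ev_ee, if_neg]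
  rintro ⟨h1, _⟩
  have := h1.length_le
  rw [length_bn] at this
  omega

/-! ### the estimates -/

theorem sum_bb_le (G : Finset (ℕ → Bool)) (N : (ℕ → Bool) → ℕ)
    (hN : ∀ γ ∈ G, ∀ γ' ∈ G, γ ≠ γ' → ∀ n, N γ < n → N γ' < n → bn γ n ≠ bn γ' n) (x : V 𝕜) :
    ∑ γ ∈ G, ‖bb γ x - ev (bn γ (N γ)) x‖ ^ 2 ≤ ‖x‖ ^ 2 := by
  classical
  have h1 : Tendsto (fun m => ∑ γ ∈ G, ‖ev (bn γ m) x - ev (bn γ (N γ)) x‖ ^ 2)
      (hyperfilter ℕ : Filter ℕ) (𝓝 (∑ γ ∈ G, ‖bb γ x - ev (bn γ (N γ)) x‖ ^ 2)) :=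
    tendsto_finsetSum _ fun γ _ => (((bb_lim γ x).sub_const _).norm).pow 2
  refine le_of_tendsto h1 ?_
  filter_upwards [hyp_ge (G.sup N)] with m hm
  have hle : ∀ γ ∈ G, N γ ≤ m := fun γ hγ => (Finset.le_sup (f := N) hγ).trans hm
  refine sum_le x G (fun γ => (bn γ (N γ), bn γ m)) (fun γ hγ => bn_suffix γ (hle γ hγ)) ?_
  rintro γ hγ γ' hγ' hne t ⟨ht1, ht2⟩
  rw [inn_iff (bn_suffix γ (hle γ hγ)), length_bn] at ht1
  rw [inn_iff (bn_suffix γ' (hle γ' hγ')), length_bn] at ht2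
  have e1 := suffix_bn_iff ht1.1
  have e2 := suffix_bn_iff ht2.1
  exact hN γ hγ γ' hγ' hne t.length ht1.2 ht2.2 (e1.symm.trans e2)

theorem cs_bound {ι : Type} (G : Finset ι) (a b : ι → ℝ) (C : ℝ) (ha : ∀ i, 0 ≤ a i)
    (hb : ∀ i, 0 ≤ b i) (hC : 0 ≤ C) (h : ∑ i ∈ G, b i ^ 2 ≤ C ^ 2) :
    ∑ i ∈ G, a i * b i ≤ Real.sqrt (∑ i ∈ G, a i ^ 2) * C := by
  have h0 : 0 ≤ ∑ i ∈ G, a i ^ 2 := Finset.sum_nonneg fun i _ => by positivity
  refine lesq ?_ (by positivity)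
  rw [mul_pow, Real.sq_sqrt h0]
  exact (Finset.sum_mul_sq_le_sq_mul_sq _ _ _).trans (mul_le_mul_of_nonneg_left h h0)

theorem norm_sum_bb (G : Finset (ℕ → Bool)) (N : (ℕ → Bool) → ℕ)
    (hN : ∀ γ ∈ G, ∀ γ' ∈ G, γ ≠ γ' → ∀ n, N γ < n → N γ' < n → bn γ n ≠ bn γ' n)
    (d : (ℕ → Bool) → 𝕜) :
    ‖∑ γ ∈ G, d γ • ((bb γ : StrongDual 𝕜 (V 𝕜)) - ev (bn γ (N γ)))‖ ≤
      Real.sqrt (∑ γ ∈ G, ‖d γ‖ ^ 2) := by
  refine ContinuousLinearMap.opNorm_le_bound _ (Real.sqrt_nonneg _) fun x => ?_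
  have e1 : (∑ γ ∈ G, d γ • ((bb γ : StrongDual 𝕜 (V 𝕜)) - ev (bn γ (N γ))) : StrongDual 𝕜 (V 𝕜)) x =
      ∑ γ ∈ G, d γ * (bb γ x - ev (bn γ (N γ)) x) := by
    rw [_root_.sum_apply]
    rfl
  rw [e1]
  have h1 : ‖∑ γ ∈ G, d γ * (bb γ x - ev (bn γ (N γ)) x)‖ ≤
      ∑ γ ∈ G, ‖d γ‖ * ‖bb γ x - ev (bn γ (N γ)) x‖ :=
    (norm_sum_le _ _).trans (le_of_eq (Finset.sum_congr rfl fun γ _ => norm_mul _ _))
  exact h1.trans (cs_bound G _ _ ‖x‖ (fun _ => norm_nonneg _) (fun _ => norm_nonneg _)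
    (norm_nonneg _) (sum_bb_le G N hN x))

theorem norm_sum_ee {ι : Type} (S : Finset ι) (s : ι → Nd) (n : ℕ) (hn : 1 ≤ n)
    (hs : ∀ i ∈ S, (s i).length = n) (hinj : ∀ i ∈ S, ∀ j ∈ S, i ≠ j → s i ≠ s j) (d : ι → 𝕜) :
    ‖∑ i ∈ S, d i • (ee (s i) : V 𝕜)‖ ≤ Real.sqrt (∑ i ∈ S, ‖d i‖ ^ 2) := by
  classical
  have h0 : 0 ≤ ∑ i ∈ S, ‖d i‖ ^ 2 := Finset.sum_nonneg fun i _ => by positivity
  apply norm_le (Real.sqrt_nonneg _)
  intro F hF
  rw [Real.sq_sqrt h0]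
  have hval : ∀ b : Nd, ev b (∑ i ∈ S, d i • (ee (s i) : V 𝕜)) =
      ∑ i ∈ S, if s i <:+ b then d i else 0 := by
    intro b
    rw [map_sum]
    apply Finset.sum_congr rfl
    intro i hi
    rw [map_smul, ev_ee, smul_eq_mul]
    have hne : s i ≠ [] := by
      intro h
      have := hs i hi
      rw [h] at this
      simp at this
      omega
    by_cases h : s i <:+ b
    · rw [if_pos ⟨h, hne⟩, if_pos h, mul_one]
    · rw [if_neg (fun h' => h h'.1), if_neg h, mul_zero]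
  have key : ∀ p ∈ F, ‖ev p.2 (∑ i ∈ S, d i • (ee (s i) : V 𝕜)) -
      ev p.1 (∑ i ∈ S, d i • (ee (s i) : V 𝕜))‖ ^ 2 ≤ ∑ i ∈ S, if Inn (s i) p then ‖d i‖ ^ 2 else 0 := by
    intro p hp
    have hab := hF.1 p hp
    rw [hval, hval, ← Finset.sum_sub_distrib]
    have hR : 0 ≤ ∑ i ∈ S, if Inn (s i) p then ‖d i‖ ^ 2 else 0 := Finset.sum_nonneg fun i _ => by
      split_ifs
      · positivity
      · exact le_rfl
    have hterm : ∀ i ∈ S, ((if s i <:+ p.2 then d i else 0) - (if s i <:+ p.1 then d i else 0)) =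
        if Inn (s i) p then d i else 0 := by
      intro i _
      by_cases hb : s i <:+ p.2
      · by_cases ha : s i <:+ p.1
        · have hni : ¬ Inn (s i) p := by
            intro h
            exact h.2.1 (ha.eq_of_length (le_antisymm ha.length_le h.1.length_le))
          rw [if_pos hb, if_pos ha, if_neg hni, sub_self]
        · have hi : Inn (s i) p := by
            have h1 : p.1 <:+ s i := by
              rcases suffix_total hab hb with h | h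
              · exact h
              · exact absurd h ha
            exact ⟨h1, fun h => ha (h ▸ List.suffix_refl _), hb⟩
          rw [if_pos hb, if_neg ha, if_pos hi, sub_zero]
      · have ha : ¬ s i <:+ p.1 := fun h => hb (h.trans hab)
        have hni : ¬ Inn (s i) p := fun h => hb h.2.2
        rw [if_neg hb, if_neg ha, if_neg hni, sub_zero]
    rw [Finset.sum_congr rfl hterm]
    by_cases hex : ∃ i ∈ S, Inn (s i) p
    · obtain ⟨i, hi, hip⟩ := hex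
      rw [Finset.sum_eq_single i, if_pos hip]
      · have h2 : (if Inn (s i) p then ‖d i‖ ^ 2 else 0) ≤ ∑ i ∈ S, if Inn (s i) p then ‖d i‖ ^ 2 else 0 :=
          Finset.single_le_sum (f := fun i => if Inn (s i) p then ‖d i‖ ^ 2 else 0)
            (fun j _ => by
              show (0 : ℝ) ≤ if Inn (s j) p then ‖d j‖ ^ 2 else 0
              split_ifs
              · positivity
              · exact le_rfl) hi
        rwa [if_pos hip] at h2
      · intro j hj hne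
        rw [if_neg]
        intro hjp
        exact hinj j hj i hi hne (eq_of_suffix_length hjp.2.2 hip.2.2 (by rw [hs j hj, hs i hi]))
      · intro h
        exact absurd hi h
    · rw [Finset.sum_eq_zero]
      · rw [norm_zero]
        simpa using hR
      · intro i hi
        rw [if_neg (fun h => hex ⟨i, hi, h⟩)]
  refine (Finset.sum_le_sum key).trans ?_
  rw [Finset.sum_comm]
  apply Finset.sum_le_sum
  intro i _
  rw [← Finset.sum_filter, Finset.sum_const, nsmul_eq_mul]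
  have hc : (F.filter (fun p => Inn (s i) p)).card ≤ 1 := by
    rw [Finset.card_le_one]
    intro p hp q hq
    by_contra hne
    rw [Finset.mem_filter] at hp hq
    exact hF.2 p hp.1 q hq.1 hne (s i) ⟨hp.2, hq.2⟩
  have hc' : ((F.filter (fun p => Inn (s i) p)).card : ℝ) ≤ 1 := by exact_mod_cast hc
  have h3 : 0 ≤ ‖d i‖ ^ 2 := by positivity
  nlinarith

/-- from `s ≤ C √s` to `s ≤ C²` -/
theorem le_sq_of {s C : ℝ} (hs : 0 ≤ s) (h : s ≤ C * Real.sqrt s) : s ≤ C ^ 2 := by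
  have h1 : Real.sqrt s * Real.sqrt s = s := Real.mul_self_sqrt hs
  have h2 := Real.sqrt_nonneg s
  rcases h2.eq_or_lt with h3 | h3
  · rw [← h3] at h1
    nlinarith
  · have h4 : Real.sqrt s ≤ C := by
      by_contra hc
      push Not at hc
      nlinarith
    nlinarith

theorem sum_Lam_le (G : Finset (ℕ → Bool)) (f : StrongDual 𝕜 (V 𝕜)) :
    ∑ γ ∈ G, ‖Lam γ f‖ ^ 2 ≤ ‖f‖ ^ 2 := by
  classical
  have h0 : 0 ≤ ∑ γ ∈ G, ‖Lam γ f‖ ^ 2 := Finset.sum_nonneg fun i _ => by positivity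
  apply le_sq_of h0
  obtain ⟨n0, hn0⟩ := exists_sep G
  have h1 : Tendsto (fun n => ∑ γ ∈ G, conj (Lam γ f) * f (ee (bn γ n)))
      (hyperfilter ℕ : Filter ℕ) (𝓝 (∑ γ ∈ G, conj (Lam γ f) * Lam γ f)) :=
    tendsto_finsetSum _ fun γ _ => (Lam_lim γ f).const_mul _
  have e1 : ∑ γ ∈ G, conj (Lam γ f) * Lam γ f = ((∑ γ ∈ G, ‖Lam γ f‖ ^ 2 : ℝ) : 𝕜) := by
    rw [RCLike.ofReal_sum]
    refine Finset.sum_congr rfl fun γ _ => ?_
    rw [RCLike.conj_mul, RCLike.ofReal_pow]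
  rw [e1] at h1
  have h2 := h1.norm
  rw [RCLike.norm_ofReal, abs_of_nonneg h0] at h2
  refine le_of_tendsto h2 ?_
  filter_upwards [hyp_ge 1, hyp_ge n0] with n hn hn'
  have e2 : ∑ γ ∈ G, conj (Lam γ f) * f (ee (bn γ n)) =
      f (∑ γ ∈ G, conj (Lam γ f) • (ee (bn γ n) : V 𝕜)) := by
    rw [map_sum]
    refine Finset.sum_congr rfl fun γ _ => ?_
    rw [map_smul, smul_eq_mul]
  rw [e2]
  refine (f.le_opNorm _).trans (mul_le_mul_of_nonneg_left ?_ (norm_nonneg _))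
  refine (norm_sum_ee G (fun γ => bn γ n) n hn (fun γ _ => length_bn γ n)
    (fun γ hγ γ' hγ' hne => hn0 γ hγ γ' hγ' hne n hn') _).trans (le_of_eq ?_)
  congr 1
  refine Finset.sum_congr rfl fun γ _ => ?_
  rw [RCLike.norm_conj]

theorem sum_z_le (G : Finset (ℕ → Bool)) (z : StrongDual 𝕜 (StrongDual 𝕜 (V 𝕜)))
    (hz : ∀ s, z (ev s) = 0) : ∑ γ ∈ G, ‖z (bb γ)‖ ^ 2 ≤ ‖z‖ ^ 2 := by
  classical
  have h0 : 0 ≤ ∑ γ ∈ G, ‖z (bb γ)‖ ^ 2 := Finset.sum_nonneg fun i _ => by positivity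
  apply le_sq_of h0
  obtain ⟨n0, hn0⟩ := exists_sep G
  have h1 := norm_sum_bb (𝕜 := 𝕜) G (fun _ => n0)
    (fun γ hγ γ' hγ' hne n hn _ => hn0 γ hγ γ' hγ' hne n hn.le) (fun γ => conj (z (bb γ)))
  have e1 : z (∑ γ ∈ G, conj (z (bb γ)) • ((bb γ : StrongDual 𝕜 (V 𝕜)) - ev (bn γ n0))) =
      ((∑ γ ∈ G, ‖z (bb γ)‖ ^ 2 : ℝ) : 𝕜) := by
    rw [map_sum, RCLike.ofReal_sum]
    refine Finset.sum_congr rfl fun γ _ => ?_
    rw [map_smul, map_sub, hz, sub_zero, smul_eq_mul, RCLike.conj_mul, RCLike.ofReal_pow]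
  have h2 := z.le_opNorm (∑ γ ∈ G, conj (z (bb γ)) • ((bb γ : StrongDual 𝕜 (V 𝕜)) - ev (bn γ n0)))
  rw [e1, RCLike.norm_ofReal, abs_of_nonneg h0] at h2
  refine h2.trans (mul_le_mul_of_nonneg_left (h1.trans (le_of_eq ?_)) (norm_nonneg _))
  congr 1
  refine Finset.sum_congr rfl fun γ _ => ?_
  rw [RCLike.norm_conj]

/-! ### functionals without mass on the branches -/

theorem z_PP (z : StrongDual 𝕜 (StrongDual 𝕜 (V 𝕜))) (hz : ∀ s, z (ev s) = 0)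
    (f : StrongDual 𝕜 (V 𝕜)) (n : ℕ) : z (f.comp (PP n)) = 0 := by
  induction n with
  | zero =>
    have : f.comp (PP 0) = 0 := by
      ext x
      show f (PP 0 x) = 0
      rw [PP_zero, map_zero]
    rw [this, map_zero]
  | succ n ih =>
    have e1 : f.comp (PP (n + 1)) = f.comp (PP n) +
        ∑ s ∈ lev (n + 1), f (ee s) • ((ev s : StrongDual 𝕜 (V 𝕜)) - ev s.tail) := by
      ext x
      show f (PP (n + 1) x) = f (PP n x) +
        (∑ s ∈ lev (n + 1), f (ee s) • ((ev s : StrongDual 𝕜 (V 𝕜)) - ev s.tail) :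
          StrongDual 𝕜 (V 𝕜)) x
      rw [PP_succ, map_add, map_sum, _root_.sum_apply]
      congr 1
      refine Finset.sum_congr rfl fun s _ => ?_
      rw [map_smul]
      show (ev s x - ev s.tail x) * f (ee s) = f (ee s) * (ev s x - ev s.tail x)
      ring
    rw [e1, map_add, ih, zero_add, map_sum]
    refine Finset.sum_eq_zero fun s _ => ?_
    rw [map_smul, map_sub, hz, hz, sub_zero, smul_zero]

theorem z_of_Lam_zero (h1 : TaskC1 𝕜) (h2 : TaskC2 𝕜) (z : StrongDual 𝕜 (StrongDual 𝕜 (V 𝕜)))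
    (hz : ∀ s, z (ev s) = 0) (f : StrongDual 𝕜 (V 𝕜)) (hf : ∀ γ, Lam γ f = 0) : z f = 0 := by
  have hC1 : ∀ γ : ℕ → Bool, ∀ ε > 0, ∃ n, ∀ x : V 𝕜, ‖f (RR (bn γ n) x)‖ ≤ ε * ‖x‖ := by
    intro γ
    apply h1 f γ
    intro ε hε N
    have h3 := (Lam_lim γ f).norm
    rw [hf γ, norm_zero] at h3
    have h4 : ∀ᶠ n in (hyperfilter ℕ : Filter ℕ), ‖f (ee (bn γ n))‖ < ε :=
      h3.eventually (gt_mem_nhds hε)
    obtain ⟨n, hn1, hn2⟩ := (h4.and (hyp_ge N)).exists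
    exact ⟨n, hn2, hn1.le⟩
  have hC2 := h2 f hC1
  have h5 : ∀ ε : ℝ, 0 < ε → ‖z f‖ ≤ ‖z‖ * ε := by
    intro ε hε
    obtain ⟨n, hn⟩ := hC2 ε hε
    have e1 : f = f.comp (PP n) + f.comp (QQ n) := by
      ext x
      show f x = f (PP n x) + f (QQ n x)
      rw [← map_add, PP_add_QQ]
    have e2 : z f = z (f.comp (QQ n)) := by
      conv_lhs => rw [e1]
      rw [map_add, z_PP z hz, zero_add]
    rw [e2]
    refine (z.le_opNorm _).trans (mul_le_mul_of_nonneg_left ?_ (norm_nonneg _))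
    exact ContinuousLinearMap.opNorm_le_bound _ hε.le fun x => hn x
  have h6 : ‖z f‖ ≤ 0 := by
    apply le_of_forall_pos_le_add
    intro δ hδ
    have h7 := h5 (δ / (‖z‖ + 1)) (by positivity)
    have h8 : ‖z‖ * (δ / (‖z‖ + 1)) ≤ δ := by
      rw [mul_div_assoc', div_le_iff₀ (by positivity)]
      nlinarith [norm_nonneg z]
    linarith
  exact norm_le_zero_iff.1 h6

end Pool.Agent.H511R3.JT
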