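import Pool.Agent.H511R3.JT.E1

/-!
# Task 585-E, part 2: the norm of the functionals vanishing on the evaluations
-/

set_option autoImplicit false
open Filter Topology Finset
open scoped ENNReal ComplexConjugate

namespace Pool.Agent.H511R3.JT

open Pool.Agent.H585R4.JT

variable {𝕜 : Type} [RCLike 𝕜]

theorem summable_Lam (f : StrongDual 𝕜 (V 𝕜)) : Summable (fun γ => ‖Lam γ f‖ ^ 2) :=
  summable_of_sum_le (fun γ => by positivity) (fun G => sum_Lam_le G f)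

theorem exists_levels (c : (ℕ → Bool) → ℝ) (hc : Summable c) : ∃ N : (ℕ → Bool) → ℕ,
    ∀ γ γ', c γ ≠ 0 → c γ' ≠ 0 → γ ≠ γ' → ∀ n, N γ < n → N γ' < n → bn γ n ≠ bn γ' n := by
  classical
  have hcs : (Function.support c).Countable := hc.countable_support
  obtain ⟨e, he⟩ := Set.countable_iff_exists_injOn.1 hcs
  have hfin : ∀ γ, {γ' | γ' ∈ Function.support c ∧ e γ' < e γ}.Finite := by
    intro γ
    apply Set.Finite.of_finite_image (f := e)
    · exact (Set.finite_lt_nat (e γ)).subset (by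
        rintro _ ⟨γ', h, rfl⟩
        exact h.2)
    · exact he.mono fun γ' h => h.1
  have hN : ∀ γ, ∃ N : ℕ, ∀ γ', c γ' ≠ 0 → e γ' < e γ → γ ≠ γ' → ∀ n, N ≤ n → bn γ n ≠ bn γ' n := by
    intro γ
    obtain ⟨n0, hn0⟩ := exists_sep (insert γ (hfin γ).toFinset)
    refine ⟨n0, fun γ' h1 h2 hne n hn => ?_⟩
    refine hn0 γ (Finset.mem_insert_self _ _) γ' (Finset.mem_insert_of_mem ?_) hne n hn
    rw [Set.Finite.mem_toFinset]
    exact ⟨h1, h2⟩
  choose N hN using hN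
  refine ⟨N, fun γ γ' h h' hne n hn hn' => ?_⟩
  rcases lt_trichotomy (e γ) (e γ') with h1 | h1 | h1
  · exact (hN γ' γ h h1 hne.symm n hn'.le).symm
  · exact absurd (he h h' h1) hne
  · exact hN γ γ' h' h1 hne n hn.le

theorem z_hasSum (h1 : TaskC1 𝕜) (h2 : TaskC2 𝕜) (z : StrongDual 𝕜 (StrongDual 𝕜 (V 𝕜)))
    (hz : ∀ s, z (ev s) = 0) (f : StrongDual 𝕜 (V 𝕜)) :
    HasSum (fun γ => Lam γ f * z (bb γ)) (z f) := by
  classical
  have hs := summable_Lam f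
  obtain ⟨N, hN⟩ := exists_levels _ hs
  obtain ⟨b', hb'⟩ : ∃ b' : (ℕ → Bool) → StrongDual 𝕜 (V 𝕜),
      b' = fun γ => bb γ - ev (bn γ (N γ)) := ⟨_, rfl⟩
  have hsum : Summable (fun γ => Lam γ f • b' γ) := by
    rw [summable_iff_vanishing_norm]
    intro ε hε
    obtain ⟨s, hs'⟩ := summable_iff_vanishing_norm.1 hs (ε ^ 2) (by positivity)
    refine ⟨s, fun t ht => ?_⟩
    have h3 := hs' t ht
    have h0 : 0 ≤ ∑ γ ∈ t, ‖Lam γ f‖ ^ 2 := Finset.sum_nonneg fun i _ => by positivity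
    rw [Real.norm_eq_abs, abs_of_nonneg h0] at h3
    have e1 : ∑ γ ∈ t, Lam γ f • b' γ = ∑ γ ∈ t.filter (fun γ => ‖Lam γ f‖ ^ 2 ≠ 0), Lam γ f • b' γ := by
      symm
      apply Finset.sum_filter_of_ne
      intro γ _ hne h
      apply hne
      have h4 : Lam γ f = 0 := by
        have h5 := pow_eq_zero_iff (two_ne_zero) |>.1 h
        exact norm_eq_zero.1 h5
      ext x
      show Lam γ f * b' γ x = 0
      rw [h4, zero_mul]
    rw [e1, hb']
    have h4 := norm_sum_bb (𝕜 := 𝕜) (t.filter (fun γ => ‖Lam γ f‖ ^ 2 ≠ 0)) N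
      (fun γ hγ γ' hγ' hne n hn hn' => hN γ γ' (Finset.mem_filter.1 hγ).2 (Finset.mem_filter.1 hγ').2
        hne n hn hn') (fun γ => Lam γ f)
    refine lt_of_le_of_lt h4 ?_
    rw [Real.sqrt_lt' hε]
    refine lt_of_le_of_lt ?_ h3
    exact Finset.sum_le_sum_of_subset_of_nonneg (Finset.filter_subset _ _)
      (fun γ _ _ => by positivity)
  obtain ⟨h, hh⟩ := hsum
  have hLam : ∀ γ0, Lam γ0 h = Lam γ0 f := by
    intro γ0
    have h3 := (Lam γ0).hasSum hh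
    have h4 : HasSum (fun γ => Lam γ0 (Lam γ f • b' γ)) (Lam γ0 (Lam γ0 f • b' γ0)) := by
      apply hasSum_single
      intro γ hne
      rw [map_smul, hb', map_sub, Lam_bb_ne hne.symm, Lam_ev, sub_zero, smul_zero]
    have h5 : Lam γ0 (Lam γ0 f • b' γ0) = Lam γ0 f := by
      rw [map_smul, hb', map_sub, Lam_bb_self, Lam_ev, sub_zero, smul_eq_mul, mul_one]
    rw [h5] at h4
    exact h3.unique h4
  have hz0 : z (f - h) = 0 := by
    apply z_of_Lam_zero h1 h2 z hz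
    intro γ
    rw [map_sub, hLam, sub_self]
  have hzf : z f = z h := by
    rw [map_sub, sub_eq_zero] at hz0
    exact hz0
  rw [hzf]
  have h3 := z.hasSum hh
  refine h3.congr_fun ?_ |> fun h => h
  intro γ
  show Lam γ f * z (bb γ) = z (Lam γ f • b' γ)
  rw [map_smul, hb', map_sub, hz, sub_zero, smul_eq_mul]

theorem summable_z (z : StrongDual 𝕜 (StrongDual 𝕜 (V 𝕜))) (hz : ∀ s, z (ev s) = 0) :
    Summable (fun γ => ‖z (bb γ)‖ ^ 2) :=
  summable_of_sum_le (fun γ => by positivity) (fun G => sum_z_le G z hz)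

theorem norm_z (h1 : TaskC1 𝕜) (h2 : TaskC2 𝕜) (z : StrongDual 𝕜 (StrongDual 𝕜 (V 𝕜)))
    (hz : ∀ s, z (ev s) = 0) : ‖z‖ ^ 2 = ∑' γ, ‖z (bb γ)‖ ^ 2 := by
  have hs := summable_z z hz
  have h0 : 0 ≤ ∑' γ, ‖z (bb γ)‖ ^ 2 := tsum_nonneg fun γ => by positivity
  apply le_antisymm
  · have h3 : ‖z‖ ≤ Real.sqrt (∑' γ, ‖z (bb γ)‖ ^ 2) := by
      refine ContinuousLinearMap.opNorm_le_bound _ (Real.sqrt_nonneg _) fun f => ?_
      have h4 := (z_hasSum h1 h2 z hz f).norm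
      refine le_of_tendsto h4 (Filter.Eventually.of_forall fun G => ?_)
      have h5 : ‖∑ γ ∈ G, Lam γ f * z (bb γ)‖ ≤ ∑ γ ∈ G, ‖z (bb γ)‖ * ‖Lam γ f‖ :=
        (norm_sum_le _ _).trans (le_of_eq (Finset.sum_congr rfl fun γ _ => by
          rw [norm_mul, mul_comm]))
      refine h5.trans ((cs_bound G _ _ ‖f‖ (fun _ => norm_nonneg _) (fun _ => norm_nonneg _)
        (norm_nonneg _) (sum_Lam_le G f)).trans ?_)
      refine mul_le_mul_of_nonneg_right (Real.sqrt_le_sqrt ?_) (norm_nonneg _)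
      exact hs.sum_le_tsum G (fun γ _ => by positivity)
    have h6 : 0 ≤ ‖z‖ := norm_nonneg z
    have h7 := pow_le_pow_left₀ h6 h3 2
    rwa [Real.sq_sqrt h0] at h7
  · exact hs.tsum_le_of_sum_le fun G => sum_z_le G z hz

theorem par_z (h1 : TaskC1 𝕜) (h2 : TaskC2 𝕜) (z w : StrongDual 𝕜 (StrongDual 𝕜 (V 𝕜)))
    (hz : ∀ s, z (ev s) = 0) (hw : ∀ s, w (ev s) = 0) :
    ‖z + w‖ ^ 2 + ‖z - w‖ ^ 2 = 2 * (‖z‖ ^ 2 + ‖w‖ ^ 2) := by
  have hzw : ∀ s, (z + w) (ev s) = 0 := fun s => by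
    show z (ev s) + w (ev s) = 0
    rw [hz, hw, add_zero]
  have hzw' : ∀ s, (z - w) (ev s) = 0 := fun s => by
    show z (ev s) - w (ev s) = 0
    rw [hz, hw, sub_zero]
  rw [norm_z h1 h2 _ hzw, norm_z h1 h2 _ hzw', norm_z h1 h2 _ hz, norm_z h1 h2 _ hw,
    ← (summable_z _ hzw).tsum_add (summable_z _ hzw'), ← (summable_z _ hz).tsum_add (summable_z _ hw),
    ← tsum_mul_left]
  congr 1
  funext γ
  show ‖z (bb γ) + w (bb γ)‖ ^ 2 + ‖z (bb γ) - w (bb γ)‖ ^ 2 = 2 * (‖z (bb γ)‖ ^ 2 + ‖w (bb γ)‖ ^ 2)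
  have := parallelogram_law_with_norm 𝕜 (z (bb γ)) (w (bb γ))
  nlinarith

end Pool.Agent.H511R3.JT
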